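import Pool.Agent.helper59.FI.SpecB

set_option autoImplicit false

namespace Pool.Agent.FI

open Pool.Agent.helper58.DC Pool.Agent.DI Pool.Agent.GR Pool.Agent.OB

theorem FWA (hFWC : FWC_stmt) (hFWD : FWD_stmt) : FWA_stmt := by
  intro p M hS G _ _ L R hR hcom hRL θ hθ w hw
  obtain ⟨q, h1, h2, h3, h4⟩ := hFWC p M hS G L R hR hcom hRL θ hθ w hw
  refine ⟨q, h1, h2, h3, fun η hη hn => ?_, ?_⟩
  · have h5 := h4 η hη
    have h6 : {t : G | t ∈ L ∧ t ∈ nz R ∧ SB M (cz R) (funMap (MulAut.conj t⁻¹) η) θ} = ∅ := by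
      ext t
      simp only [Set.mem_setOf_eq, Set.mem_empty_iff_false, iff_false]
      rintro ⟨ha, hb, hc⟩
      exact hn t⁻¹ (L.inv_mem ha) ((nz R).inv_mem hb) hc
    rw [h6, finsum_mem_empty, zero_div, sub_zero] at h5
    exact h5
  · have h5 := h4 θ hθ
    have h6 : {t : G | t ∈ L ∧ t ∈ nz R ∧ SB M (cz R) (funMap (MulAut.conj t⁻¹) θ) θ} =
        ((TT M R θ ⊓ L : Subgroup G) : Set G) := by
      ext t
      simp only [Set.mem_setOf_eq, SetLike.mem_coe, Subgroup.mem_inf]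
      constructor
      · rintro ⟨ha, hb, hc⟩
        refine ⟨?_, ha⟩
        have h7 : t⁻¹ ∈ TT M R θ := ⟨(nz R).inv_mem hb, hc⟩
        exact (Subgroup.inv_mem_iff _).1 h7
      · rintro ⟨ha, hb⟩
        have h7 : t⁻¹ ∈ TT M R θ := (TT M R θ).inv_mem ha
        exact ⟨hb, ha.1, h7.2⟩
    rw [h6] at h5
    have h7 := hFWD p M hS G R (TT M R θ ⊓ L) hcom θ hθ (le_inf cz_le_TT hRL) inf_le_left w hw
    have h8 := InM.add hS h5 h7
    have h9 : ∀ a b c : ℂ, a - b + (b - c) = a - c := fun a b c => by ring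
    rw [h9] at h8
    exact h8

end Pool.Agent.FI
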